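import Pool.Agent.P.MP_de432b_gt.LC.K6
import Pool.Agent.P.MP_de432b_gt.LC.J4

namespace Pool.Agent.Results.MP_de432b_gt.AllFour

open Pool.Agent.P.MP_de432b_gt

/-- For the box topology and for the concentration topology the punctured space of mm-spaces is
contractible and every point has a neighbourhood basis of contractible open sets. -/
theorem result : ∀ τ : TopologicalSpace {x : MM // x ≠ cls pt},
    (τ = @instTopologicalSpaceSubtype _ _ (topOf box) ∨
      τ = @instTopologicalSpaceSubtype _ _ (topOf dconc)) →
    ContractibleSpace {x : MM // x ≠ cls pt} ∧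
      ∀ (x : {x : MM // x ≠ cls pt}) (N : Set {x : MM // x ≠ cls pt}), N ∈ nhds x →
        ∃ V : Set {x : MM // x ≠ cls pt}, IsOpen V ∧ x ∈ V ∧ V ⊆ N ∧ ContractibleSpace V := by
  rintro τ (rfl | rfl)
  · exact ⟨good_box.contractible, LC.transfer true (LC.pm_local true)⟩
  · exact ⟨good_dconc.contractible, LC.transfer false (LC.pm_local false)⟩

end Pool.Agent.Results.MP_de432b_gt.AllFour
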